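import Pool.Agent.R340.SG.Three2

set_option autoImplicit false

open Finset Pool.Agent.W432.PC Pool.Agent.Y227.SS Pool.Agent.R340.MI Pool.Agent.R340.SG

/-!
# Irreducible systems on the thrice punctured line: exponents in arcs, and a bound for multiplicities

Let `∇ = d/dt - (b / t + c / (t - 1))` be an irreducible system of rank `r ≥ 2` with rational exponents,
whose `p`-curvatures vanish for all large primes. Let `δ` be a rational number with denominator `d`, let
`ε i` be rational numbers with integral sum and `L i ≥ 0` integers with sum `d`. Then at least `r` of the
exponents (at all three points, with multiplicity) are not congruent modulo `ℤ` to one of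
`ε i, ε i + δ, …, ε i + L i δ`. So the conjecture holds for all the systems for which this fails, their
`p`-curvatures being nonzero for all large primes in some residue class. If the exponents have, up to a
twist by a system of rank one, a prime denominator, it follows that the multiplicities of two different
exponents at one point and of an exponent at another point have a sum of at most `r`; so the conjecture
holds, for example, for all the systems with prime denominators and with at most two different exponents
modulo `ℤ` at one of the three points. Nothing else is assumed: there may be any number of accessory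
parameters, and resonances.

Proof. If the `p`-curvatures vanish for a dense set of closed points with `a p = -1` modulo `B`, the
conjugate exponents `a λ` are the weights of a stable parabolic bundle of parabolic degree zero
(`Pool.Agent.Y227.SS`). There are no nonzero maps from parabolic line bundles of degree zero, hence for all
numbers `β 0`, `β 1`, `β 2` with integral sum the sum of the fractional parts of all the `a λ - β i` is at
least `r`. Add these inequalities for `a`, `β` and for `-a`, `-β - γ`, where `γ i ≥ 0` and the sum of the
`γ i` is one: at least `r` of the numbers `a λ - β i` have a fractional part greater than `γ i`, i.e. at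
least `r` exponents lie outside arcs of the lengths `γ i`, of total length one, which begin at the points
`β i`. Now choose `a` with `a δ = 1 / d` modulo `ℤ` and arcs of the lengths `L i / d`. For the bound one
takes the difference of two exponents at `x` for `δ`, `L x = 1`, `L y = 0` and `L z = d - 1`.

Part (2b) of the theorem (all total multiplicities at least `r`) contains in addition the systems of type
`(ccc, ccc, ccc)` of index of rigidity zero.
-/

namespace Pool.Agent.Results.MP_5e5ff1_ag.MultiplicityBound

universe u

/-- Let `∇ = d/dt - (b / t + c / (t - 1))` be a system of rank `r ≥ 2` over a domain `R` of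
characteristic zero, of finite type over `ℤ`, irreducible over every field which contains `R`, with
rational exponents `lam 0 l` at `0` (eigenvalues of `b`), `lam 1 l` at `1` (eigenvalues of `c`) and
`lam 2 l` at infinity (eigenvalues of `-(b + c)`). The multiplicity `mult lam x l` of the exponent
`lam x l` is the number of the exponents at the same point which are congruent to it modulo `ℤ`. Assume
one of the following.

* (1) There are rational numbers `ε i` with integral sum, a rational number `δ`, and nonnegative integers
`L i` whose sum is the denominator of `δ`, such that for less than `r` of the pairs `(i, l)` the number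
`lam i l - ε i` is not congruent modulo `ℤ` to one of the numbers `0, δ, 2 δ, …, L i δ`
(`outsideThree lam ε δ L < r`).

* (2) There is a prime number `N` such that the differences of exponents at the same point and the sums
of exponents, one for each point, are in `(1 / N) ℤ`, and (2a) or (2b) holds. (2a) (`LargeMult`): there are
two exponents at one point, not congruent modulo `ℤ`, and an exponent at another point whose
multiplicities have a sum greater than `r` (for example there are exactly two classes of exponents at one
of the points). (2b): every choice `κ` of one exponent for each point has total multiplicity at least `r`,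
and it is not the case that (`Exceptional lam`) the exponents at each of the three points are in three
classes modulo `ℤ` with `r / 3` elements, the three sets of classes are translates of one another and some
sum of exponents, one for each point, is an integer.

Then for every common denominator `B` of the exponents there are a residue class modulo `B`, prime to
`B`, and a nonzero `g` in `R` such that the `p`-curvature of `∇` is nonzero at every closed point of
`Spec R[1/g]` whose residue characteristic is a large prime in that class; in particular the
`p`-curvatures do not vanish on a dense open subset of `Spec R`. -/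
theorem result {R : Type u} [CommRing R] [IsDomain R] [CharZero R] [Algebra.FiniteType ℤ R] {r : ℕ}
    (hr : 2 ≤ r) (b c : Matrix (Fin r) (Fin r) R)
    (hirr : AbsIrreducible (![0, 1] : Fin 2 → R) ![b, c])
    (lam : Fin 3 → Fin r → ℚ) (h0 : HasExponents b (lam 0)) (h1 : HasExponents c (lam 1))
    (h2 : HasExponents (b + c) (fun l => -lam 2 l))
    (h : (∃ (ε : Fin 3 → ℚ) (δ : ℚ) (L : Fin 3 → ℕ), (∑ i, ε i).den = 1 ∧ ∑ i, L i = δ.den ∧
        outsideThree lam ε δ L < r) ∨
      (∃ N : ℕ, N.Prime ∧ (∀ i l l', ∃ m : ℤ, (N : ℚ) * (lam i l - lam i l') = m) ∧
        (∀ κ : Fin 3 → Fin r, ∃ m : ℤ, (N : ℚ) * ∑ i, lam i (κ i) = m) ∧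
        (LargeMult lam ∨
          ((∀ κ : Fin 3 → Fin r, r ≤ ∑ i, mult lam i (κ i)) ∧ ¬ Exceptional lam)))) :
    (∀ B : ℕ, 0 < B → (∀ i l, ∃ m : ℤ, (B : ℚ) * lam i l = m) →
      ∃ a : ℤ, IsCoprime a (B : ℤ) ∧ ∃ g : R, g ≠ 0 ∧ ∃ P₀ : ℕ,
        ∀ p : ℕ, p.Prime → P₀ < p → (B : ℤ) ∣ a * p + 1 →
          ∀ (𝔪 : Ideal R) [𝔪.IsMaximal], (p : R) ∈ 𝔪 → g ∉ 𝔪 →
            ¬ PCurvZeroAt ![0, 1] ![b, c] 𝔪) ∧
    ¬ CondII (![0, 1] : Fin 2 → R) ![b, c] := by
  have hα : ∀ i j : Fin 2, i ≠ j → IsUnit ((![0, 1] : Fin 2 → R) i - ![0, 1] j) := by
    intro i j hij
    fin_cases i <;> fin_cases j
    · exact absurd rfl hij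
    · simp
    · simp
    · exact absurd rfl hij
  have hlam : ∀ j : Fin 2, HasExponents ((![b, c] : Fin 2 → Matrix (Fin r) (Fin r) R) j)
      (lam j.castSucc) := by
    intro j
    fin_cases j
    · exact h0
    · exact h1
  have hphi : HasExponents (∑ j, (![b, c] : Fin 2 → Matrix (Fin r) (Fin r) R) j)
      (fun l => -lam 2 l) := by
    rw [Fin.sum_univ_two]
    exact h2
  have key : ∀ B : ℕ, 0 < B → (∀ i l, ∃ m : ℤ, (B : ℚ) * lam i l = m) →
      BadSys (![0, 1] : Fin 2 → R) ![b, c] B := by
    intro B hB hBlam
    rcases h with ⟨ε, δ, L, hε, hL, hlt⟩ | ⟨N, hN, hd, hs, h3 | ⟨h3, h4⟩⟩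
    · exact sys_ap hr _ hα _ hirr lam hlam hphi hε δ hL hlt B hB hBlam
    · exact sys_prime hr _ hα _ hirr lam hlam hphi hN hd hs h3 B hB hBlam
    · exact sys_three _ hα _ hirr lam hlam hphi hr hN hd hs h3 h4 hB hBlam
  obtain ⟨B, hB, hBlam⟩ := exists_den lam
  exact ⟨key, (key B hB hBlam).not_condII hB⟩

end Pool.Agent.Results.MP_5e5ff1_ag.MultiplicityBound
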