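import Pool.Agent.R340.MI.Count

set_option autoImplicit false

open Finset Pool.Agent.W432.PC Pool.Agent.Y227.SS Pool.Agent.TH571.PCV Pool.Agent.R340.MI

/-!
# Irreducible systems of any rank on the thrice punctured line: an inequality for every exponent

Let `∇ = d/dt - (b / t + c / (t - 1))` be an irreducible system of rank `r` with arbitrary rational
exponents `λ_{x,l}` at the points `x = 0, 1, ∞` (the eigenvalues of `b`, of `c` and of `-(b + c)`). For a
rational number `q` with denominator `n` let `gam q` be the product of the numbers `-p` for the primes
`p` dividing `n`, divided by `n ^ 2`. It is shown that `∇` satisfies the conjecture, its `p`-curvatures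
being nonzero for all large primes in some residue class, if for one of the points `x` and one exponent
`k` at `x` (`y`, `z` are the other two points)

`r ^ 2 + ∑ gam (λ_{x,i} - λ_{x,j}) + 2 ∑ gam (λ_{x,k} + λ_{y,i} + λ_{z,j}) <
  ∑ gam (λ_{y,i} - λ_{y,j}) + ∑ gam (λ_{z,i} - λ_{z,j}) + 2 r ∑ gam (λ_{x,k} - λ_{x,l})`.

If all the differences and the sums have the same prime denominator or are integers this becomes a
condition on multiplicities: `r ^ 2 + P x + 2 R < P y + P z + 2 r c`, with the numbers `P` of ordered
pairs of congruent exponents at the points, the multiplicity `c` of the exponent `k` and the number `R`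
of resonances of `k`. There is no condition on the denominators and on the resonances in the general
inequality, and the number of accessory parameters is arbitrary. For example, it holds if there are no
resonances, the denominator is a prime number, `r = 4` and two exponents at one point are congruent.

Proof. If the `p`-curvatures vanish for a dense set of closed points with `a p = -1` modulo `N`, the
conjugate exponents `a λ` are the weights of a stable parabolic bundle of parabolic degree zero
(`Pool.Agent.Y227.SS`). Infinity can be exchanged with a finite point (`Swap`), and the weights can be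
shifted by real numbers with sum zero (elementary modifications, `HK/Shift`); so the underlying bundle
is trivial after the shift by the cut `τ` at the point `x`, for almost all `τ`. A basis adapted to the
flags at two points gives the inequalities of Lidskii for all `τ`, which imply a quadratic inequality for
every exponent at `x` (`Pool.Agent.R927`, of helper927). Its average over all conjugates is computed with
the function `gam`.
-/

namespace Pool.Agent.Results.MP_5e5ff1_ag.MultiplicityInequality

universe u

/-- Let `∇ = d/dt - (b / t + c / (t - 1))` be a system of any rank `r` over a domain `R` of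
characteristic zero, of finite type over `ℤ`, irreducible over every field which contains `R`, with
rational exponents `lam 0 l` at `0` (eigenvalues of `b`), `lam 1 l` at `1` (eigenvalues of `c`) and
`lam 2 l` at infinity (eigenvalues of `-(b + c)`). Let `x`, `y`, `z` be the three points, in any order,
and let `lam x k` be one of the exponents at `x`. Assume that one of the following holds.

* `Violated lam x y z k`: `r ^ 2 + ∑ gam (lam x i - lam x j) + 2 ∑ gam (lam x k + lam y i + lam z j)` is
less than `∑ gam (lam y i - lam y j) + ∑ gam (lam z i - lam z j) + 2 r ∑ gam (lam x k - lam x l)`, or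
equal to this number if there are two exponents at `x` which are different modulo `ℤ` from each other
and from `lam x k`.

* There is a prime number `p` such that the differences of exponents at the same point and the sums
`lam x k + lam y l + lam z l'` are in `(1 / p) ℤ` and
`r ^ 2 + pairs lam x + 2 sums lam x y z k < pairs lam y + pairs lam z + 2 r mult lam x k` (`≤` if there
are two exponents at `x` which are different modulo `ℤ` from each other and from `lam x k`), where
`pairs lam x` is the number of ordered pairs of exponents at `x` which are congruent modulo `ℤ`,
`sums lam x y z k` is the number of the integers among the sums `lam x k + lam y l + lam z l'` and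
`mult lam x k` is the number of the exponents at `x` congruent to `lam x k`.

Then for every common denominator `N` of the exponents there are a residue class modulo `N`, prime to
`N`, and a nonzero `g` in `R` such that the `p`-curvature of `∇` is nonzero at every closed point of
`Spec R[1/g]` whose residue characteristic is a large prime in that class; in particular the
`p`-curvatures do not vanish on a dense open subset of `Spec R`. -/
theorem result {R : Type u} [CommRing R] [IsDomain R] [CharZero R] [Algebra.FiniteType ℤ R] {r : ℕ}
    (b c : Matrix (Fin r) (Fin r) R) (hirr : AbsIrreducible (![0, 1] : Fin 2 → R) ![b, c])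
    (lam : Fin 3 → Fin r → ℚ) (h0 : HasExponents b (lam 0)) (h1 : HasExponents c (lam 1))
    (h2 : HasExponents (b + c) (fun l => -lam 2 l)) (x y z : Fin 3) (hxy : x ≠ y) (hyz : y ≠ z)
    (hxz : x ≠ z) (k : Fin r)
    (hv : Violated lam x y z k ∨ ∃ p : ℕ, p.Prime ∧
      (∀ i l l', ∃ m : ℤ, (p : ℚ) * (lam i l - lam i l') = m) ∧
      (∀ l l', ∃ m : ℤ, (p : ℚ) * (lam x k + lam y l + lam z l') = m) ∧
      (r ^ 2 + pairs lam x + 2 * sums lam x y z k < pairs lam y + pairs lam z +
          2 * r * mult lam x k ∨
        r ^ 2 + pairs lam x + 2 * sums lam x y z k ≤ pairs lam y + pairs lam z +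
          2 * r * mult lam x k ∧ Three lam x k)) :
    (∀ N : ℕ, 0 < N → (∀ i l, ∃ m : ℤ, (N : ℚ) * lam i l = m) →
      ∃ a : ℤ, IsCoprime a (N : ℤ) ∧ ∃ g : R, g ≠ 0 ∧ ∃ P₀ : ℕ,
        ∀ p : ℕ, p.Prime → P₀ < p → (N : ℤ) ∣ a * p + 1 →
          ∀ (𝔪 : Ideal R) [𝔪.IsMaximal], (p : R) ∈ 𝔪 → g ∉ 𝔪 →
            ¬ PCurvZeroAt ![0, 1] ![b, c] 𝔪) ∧
    ¬ CondII (![0, 1] : Fin 2 → R) ![b, c] := by
  have hα : ∀ i j : Fin 2, i ≠ j → IsUnit ((![0, 1] : Fin 2 → R) i - ![0, 1] j) := by
    intro i j hij
    fin_cases i <;> fin_cases j
    · exact absurd rfl hij
    · simp
    · simp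
    · exact absurd rfl hij
  have hlam : ∀ j : Fin 2, HasExponents ((![b, c] : Fin 2 → Matrix (Fin r) (Fin r) R) j)
      (lam j.castSucc) := by
    intro j
    fin_cases j
    · exact h0
    · exact h1
  have hphi : HasExponents (∑ j, (![b, c] : Fin 2 → Matrix (Fin r) (Fin r) R) j)
      (fun l => -lam 2 l) := by
    rw [Fin.sum_univ_two]
    exact h2
  have hv' : Violated lam x y z k := by
    rcases hv with hv | ⟨p, hp, e1, e2, e3⟩
    · exact hv
    · exact violated_prime hp lam x y z k e1 e2 e3
  have key : ∀ N : ℕ, 0 < N → (∀ i l, ∃ m : ℤ, (N : ℚ) * lam i l = m) →
      BadSys (![0, 1] : Fin 2 → R) ![b, c] N := fun N hN hNlam =>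
    sys_main _ hα _ hirr lam hlam hphi hxy hyz hxz k hv' N hN hNlam
  obtain ⟨N, hN, hNlam⟩ := exists_den lam
  exact ⟨key, (key N hN hNlam).not_condII hN⟩

end Pool.Agent.Results.MP_5e5ff1_ag.MultiplicityInequality
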