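import Pool.Agent.R927.GG8

set_option autoImplicit false

open Finset Pool.Agent.W432.PC Pool.Agent.Y227.SS Pool.Agent.TH571.PCV Pool.Agent.R927
open Pool.Agent.R340.SY (expo)

/-!
# Systems on the thrice punctured line: large denominators, large multiplicities

Let `∇ = d/dt - (b / t + c / (t - 1))` be an irreducible system of rank `r ≥ 2` with rational exponents.

**Large denominators.** If the number of the pairs of exponents at the same point which agree modulo `ℤ`
is at least `r ^ 2` (for semisimple local monodromy: the index of rigidity is at least zero; this is
always the case in rank three) and if all the other differences of exponents at the same point and all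
the sums of three exponents, one for each point, have denominators at least `2 ^ (2 r 4 ^ r) · 2 r ^ 2`,
the `p`-curvatures of `∇` are nonzero for all large primes in some residue class. The systems of index
of rigidity zero have one accessory parameter.

Proof. If the `p`-curvatures vanish for all the classes of primes, all the conjugates of the exponents
are the weights of stable parabolic bundles. Let `N` be a common denominator, `n (s)`, `s ∈ ℤ / N`, the
counting function of the exponents at two of the points `x₁`, `x₀` and `M (k)` that of the exponents at
the third. The stability implies that `M` majorizes `n`, strictly. So there is a first level `h` at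
which the numbers `a = #{s | n (s) ≥ h}` and `b = #{k | M (k) ≥ h}` differ, and
`0 < a - b ≤ (∑ M ^ 2 - ∑ n ^ 2) / 2`. Now `b` is the residue modulo `N` of an exponent at the third point,
and `a` is, by partial summation, the residue of a difference of a sum of exponents at `x₁` and a sum of
exponents at `x₀`. So `a - b` is the residue of `u L` for one of at most `2 r 4 ^ r` linear forms `L` in
the exponents. The product of the algebraic integers `1 - ζ ^ L` over the forms which are not zero
modulo `N` is not zero, so the mean of the absolute values of its conjugates is at least one. This gives
a lower bound for the mean of `∑ M ^ 2 - ∑ n ^ 2`, but this mean is zero or negative up to the contribution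
of the denominators (`R927/GG1` - `GG8`).

**Large multiplicities.** Let `∇ = d/dt - (b / t + c / (t - 1))` be an irreducible system of rank `r ≥ 2` with arbitrary rational
exponents. Assume that an exponent `κ` at one point and an exponent `κ'` at another point have together
at least `r` members in their classes modulo `ℤ`. (This is an additive analogue of Okubo's normal form:
after a twist by a rank one system and a middle extension the system becomes one with residues of rank
`r` in total. All hypergeometric systems are of this kind; if the rank is large there are such systems
with many accessory parameters.) In other words, after the twist at most `r` of the exponents away from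
the third point `x₀` are not integers. Then, if the `p`-curvatures vanish, the fractional parts of all
the conjugates of the twisted exponents at `x₀` (sign reversed) strictly majorize those of the other
exponents. Moreover the conjecture holds for `∇` (its `p`-curvatures are nonzero for all large
primes in some residue class modulo any given common denominator of the exponents) **if all the twisted
exponents which are not integers have denominators at least `28 r ^ 3`**; or the multiplicities
have sum greater than `r`; or some twisted exponent at `x₀` is an integer; or the sum of `1 - gam` over
the other exponents is at most that over the exponents at `x₀` plus `1 / (14 r ^ 2)`, where `gam q` is the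
product of `-p` for the primes `p` dividing the denominator of `q`, divided by the square of the
denominator; or one of the other exponents is not an integer and has a denominator at least as large as
those at `x₀`; or all these numbers are in `(1 / p) ℤ` for a prime `p`.

Proof. If the `p`-curvatures vanish for a dense set of closed points with `a p = -1` modulo the common
denominator, the conjugate exponents `a λ` are the weights of a stable parabolic bundle of degree zero
(`Pool.Agent.Y227.SS`), for every shift of the weights; so the fractional parts of the conjugate
exponents at the third point strictly majorize those at the two points (`R927/OK1` - `OK6`). Infinity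
can be exchanged with a finite point (`Pool.Agent.R340.MI.Swap`, of helper340). Majorization for all
conjugates is contradictory in each of the cases: for a suitable conjugate the largest fractional part
is at one of the two points; for large denominators one uses that the mean of the absolute values of the
conjugates of a nonzero sum of roots of unity is at least one (`R927/GP1`, `GP2`).
-/

namespace Pool.Agent.Results.MP_5e5ff1_ag.PairMultiplicity

universe u

/-- Let `∇ = d/dt - (b / t + c / (t - 1))` be a system of rank `r ≥ 2` over a domain `R` of
characteristic zero, of finite type over `ℤ`, irreducible over every field which contains `R`, with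
rational exponents `lam 0 l` at `0` (eigenvalues of `b`), `lam 1 l` at `1` (eigenvalues of `c`) and
`-phi l` at infinity (`phi l`: eigenvalues of `b + c`). The three points are numbered by `some 0`,
`some 1`, `none`, and `E x l = expo lam phi x l` is the `l`-th exponent at `x`.

First part. Assume that at some point there are three exponents which are distinct modulo `ℤ`, that all
the differences `E x l - E x l'` of two exponents at the same point and all the sums `∑ x, E x (κ x)` of
three exponents, one for each point, have denominators at least `2 ^ (4 ^ r (2 r)) · 2 r ^ 2`, except for
the differences which are integers, and that `r ≤ 3` or `E x l - E x l'` is an integer for at least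
`r ^ 2` triples `(x, l, l')`. Then for every common denominator `B` of the exponents there are a residue
class modulo `B`, prime to `B`, and a nonzero `g` such that the `p`-curvature of `∇` is nonzero at all
the closed points of `Spec R[1/g]` whose residue characteristic is a large prime in this class
(`BadMod`), and the `p`-curvatures do not vanish on a dense open subset of `Spec R`.

Second part. Let `ε x` be rational numbers with sum zero, for the three points `x`, and let `D x l` be
the differences of the exponents at `x` with `ε x`. Let `x₀` be one of the points, and assume that at
most `r` of the `D x l` with `x ≠ x₀` are not integers (that is, at least `r` of the exponents at the two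
points `x ≠ x₀` are congruent to `ε x` modulo `ℤ`).

* `MajorAll x₀ D` holds (exactly `r` of the `D x l` with `x ≠ x₀` are not integers, no `D x₀ k` is an
integer, and for every common denominator `q` of the `D x l` and every `u` prime to `q` the fractional
parts of the `-u D x₀ k` strictly majorize those of the `u D x l`, `x ≠ x₀`), or `BadMod` holds for every
common denominator `B` of the exponents.

* If `Unbalanced x₀ D` holds, the second alternative holds and the `p`-curvatures do not vanish on a
dense open subset of `Spec R`. `Unbalanced x₀ D` means: less than `r` of the `D x l` with `x ≠ x₀` are not
integers; or some `D x₀ k` is an integer; or the sum of `1 - gam (D x l)` over all `x ≠ x₀` and `l` is at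
most the sum of `1 - gam (D x₀ k)` over all `k` plus `1 / (14 r ^ 2)`; or all the `D x l` (for all `x` and
`l`) which are not integers have denominators at least `28 r ^ 3`; or some `D x l` with `x ≠ x₀` is not
an integer and has a denominator at least as large as all the `D x₀ k`; or all the `D x l` are in
`(1 / N) ℤ` for some prime `N`. -/
theorem result {R : Type u} [CommRing R] [IsDomain R] [CharZero R] [Algebra.FiniteType ℤ R] {r : ℕ}
    (hr : 1 < r) (b c : Matrix (Fin r) (Fin r) R)
    (hirr : AbsIrreducible (![0, 1] : Fin 2 → R) ![b, c])
    (lam : Fin 2 → Fin r → ℚ) (phi : Fin r → ℚ) (h0 : HasExponents b (lam 0))
    (h1 : HasExponents c (lam 1)) (h2 : HasExponents (b + c) phi) :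
    ((∃ x l l' l'', (expo lam phi x l - expo lam phi x l').den ≠ 1 ∧
        (expo lam phi x l - expo lam phi x l'').den ≠ 1 ∧
        (expo lam phi x l' - expo lam phi x l'').den ≠ 1) →
      (∀ x l l', (expo lam phi x l - expo lam phi x l').den = 1 ∨
        2 ^ (4 ^ r * (2 * r)) * (2 * r ^ 2) ≤ (expo lam phi x l - expo lam phi x l').den) →
      (∀ κ : Option (Fin 2) → Fin r,
        2 ^ (4 ^ r * (2 * r)) * (2 * r ^ 2) ≤ (∑ x, expo lam phi x (κ x)).den) →
      (r ≤ 3 ∨ r ^ 2 ≤ (univ.filter fun p : Option (Fin 2) × Fin r × Fin r =>
        (expo lam phi p.1 p.2.1 - expo lam phi p.1 p.2.2).den = 1).card) →
      (∀ B, ExpDen lam phi B → BadMod (![0, 1] : Fin 2 → R) ![b, c] B) ∧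
        ¬ CondII (![0, 1] : Fin 2 → R) ![b, c]) ∧
    (∀ (x₀ : Option (Fin 2)) (ε : Option (Fin 2) → ℚ) (D : Option (Fin 2) → Fin r → ℚ),
      IsTwist lam phi ε D → nonintAway x₀ D ≤ r →
      ((∀ B, ExpDen lam phi B → BadMod (![0, 1] : Fin 2 → R) ![b, c] B) ∨ MajorAll x₀ D) ∧
      (Unbalanced x₀ D → (∀ B, ExpDen lam phi B → BadMod (![0, 1] : Fin 2 → R) ![b, c] B) ∧
        ¬ CondII (![0, 1] : Fin 2 → R) ![b, c])) := by
  have hα : ∀ i j : Fin 2, i ≠ j → IsUnit ((![0, 1] : Fin 2 → R) i - ![0, 1] j) := by
    intro i j hij
    fin_cases i <;> fin_cases j
    · exact absurd rfl hij
    · simp
    · simp
    · exact absurd rfl hij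
  have hlam : ∀ j : Fin 2, HasExponents ((![b, c] : Fin 2 → Matrix (Fin r) (Fin r) R) j)
      (lam j) := by
    intro j
    fin_cases j
    · exact h0
    · exact h1
  have hphi : HasExponents (∑ j, (![b, c] : Fin 2 → Matrix (Fin r) (Fin r) R) j) phi := by
    rw [Fin.sum_univ_two]
    exact h2
  refine ⟨fun h3 hd hs hrig => ?_, fun x₀ ε D hD hfew => ?_⟩
  · have h4 := three_large (by omega) _ hα _ lam phi hlam hphi hirr h3 hd hs
      (hrig.elim (fun h => card_pairs (expo lam phi) h) id)
    exact ⟨h4, not_condII_of_badMod h4⟩
  · refine ⟨sys_major_all hr _ hα _ lam phi hlam hphi hirr x₀ hD hfew, fun h => ?_⟩
    have h3 := sys_unbalanced hr _ hα _ lam phi hlam hphi hirr x₀ hD hfew h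
    exact ⟨h3, not_condII_of_badMod h3⟩

end Pool.Agent.Results.MP_5e5ff1_ag.PairMultiplicity
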