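import Pool.Agent.R340.MI.SysSym

set_option autoImplicit false

open Finset Pool.Agent.W432.PC Pool.Agent.Y227.SS Pool.Agent.R340.MI

/-!
# Irreducible systems of any rank on the thrice punctured line: the symmetry at a resonance

Let `∇ = d/dt - (b / t + c / (t - 1))` be an irreducible system of rank `r ≥ 2` with rational exponents,
and let one exponent be chosen at each of the points `0, 1, ∞`, with integral sum (a resonance) and with
total multiplicity at least `r`. Let the differences of the exponents and the chosen exponents at the
same point have a common denominator `q` which is a prime number or has no prime factor `≤ 4 r + 1`.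
It is shown that `∇` satisfies the conjecture, its `p`-curvatures being nonzero for all large primes in
some residue class, unless the total multiplicity is `r` and the family of the differences (of all the
exponents at the three points and the chosen ones) is symmetric modulo `ℤ` under the change of sign.
The number of accessory parameters is arbitrary.

Proof. If the `p`-curvatures vanish for a dense set of closed points with `a p = -1` modulo `N`, the
conjugate exponents `a λ` are the weights of a stable parabolic bundle of parabolic degree zero
(`Pool.Agent.Y227.SS`), and so are the ones of the twist for which the chosen exponents are zero. The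
inequality for line subbundles says that the sum of the fractional parts of the weights is at least `r`;
this for `a` and `-a` shows that the total multiplicity is at most `r`, and in case of equality the sum of
the sawtooth function over the differences vanishes for all `a`. As the generalized Bernoulli numbers
`B_{1,χ}` of odd characters are nonzero this implies the symmetry (`Pool.Agent.R340.SY`).
-/

namespace Pool.Agent.Results.MP_5e5ff1_ag.RankOneSymmetry

universe u

/-- Let `∇ = d/dt - (b / t + c / (t - 1))` be a system of rank `r ≥ 2` over a domain `R` of
characteristic zero, of finite type over `ℤ`, irreducible over every field which contains `R`, with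
rational exponents `lam 0 l` at `0` (eigenvalues of `b`), `lam 1 l` at `1` (eigenvalues of `c`) and
`lam 2 l` at infinity (eigenvalues of `-(b + c)`). Let `κ` be a choice of one exponent for each point,
with integral sum. For rational numbers `s` let `shifted lam κ s` be the number of pairs of a point `i`
and an exponent `lam i l` at this point which is congruent to `lam i (κ i) + s` modulo `ℤ`. Assume that
`shifted lam κ 0`, the total multiplicity of the chosen exponents, is at least `r`. Let `q` be a common
denominator of the differences `lam i l - lam i (κ i)`, which is a prime number or has only prime factors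
greater than `4 r + 1`. Assume that the total multiplicity is not equal to `r` or that
`shifted lam κ s ≠ shifted lam κ (-s)` for some `s`.

Then for every common denominator `B` of the exponents there are a residue class modulo `B`, prime to
`B`, and a nonzero `g` in `R` such that the `p`-curvature of `∇` is nonzero at every closed point of
`Spec R[1/g]` whose residue characteristic is a large prime in that class; in particular the
`p`-curvatures do not vanish on a dense open subset of `Spec R`. -/
theorem result {R : Type u} [CommRing R] [IsDomain R] [CharZero R] [Algebra.FiniteType ℤ R] {r : ℕ}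
    (hr : 2 ≤ r) (b c : Matrix (Fin r) (Fin r) R)
    (hirr : AbsIrreducible (![0, 1] : Fin 2 → R) ![b, c])
    (lam : Fin 3 → Fin r → ℚ) (h0 : HasExponents b (lam 0)) (h1 : HasExponents c (lam 1))
    (h2 : HasExponents (b + c) (fun l => -lam 2 l)) (κ : Fin 3 → Fin r)
    (hκ : (∑ i, lam i (κ i)).den = 1) (hC : r ≤ shifted lam κ 0) {q : ℕ} (hq : 0 < q)
    (hqq : q.Prime ∨ ∀ p : ℕ, p.Prime → p ∣ q → 4 * r + 1 < p)
    (hd : ∀ i l, ∃ m : ℤ, (q : ℚ) * (lam i l - lam i (κ i)) = m)
    (hne : shifted lam κ 0 ≠ r ∨ ∃ s, shifted lam κ s ≠ shifted lam κ (-s)) :
    (∀ B : ℕ, 0 < B → (∀ i l, ∃ m : ℤ, (B : ℚ) * lam i l = m) →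
      ∃ a : ℤ, IsCoprime a (B : ℤ) ∧ ∃ g : R, g ≠ 0 ∧ ∃ P₀ : ℕ,
        ∀ p : ℕ, p.Prime → P₀ < p → (B : ℤ) ∣ a * p + 1 →
          ∀ (𝔪 : Ideal R) [𝔪.IsMaximal], (p : R) ∈ 𝔪 → g ∉ 𝔪 →
            ¬ PCurvZeroAt ![0, 1] ![b, c] 𝔪) ∧
    ¬ CondII (![0, 1] : Fin 2 → R) ![b, c] := by
  have hα : ∀ i j : Fin 2, i ≠ j → IsUnit ((![0, 1] : Fin 2 → R) i - ![0, 1] j) := by
    intro i j hij
    fin_cases i <;> fin_cases j
    · exact absurd rfl hij
    · simp
    · simp
    · exact absurd rfl hij
  have hlam : ∀ j : Fin 2, HasExponents ((![b, c] : Fin 2 → Matrix (Fin r) (Fin r) R) j)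
      (lam j.castSucc) := by
    intro j
    fin_cases j
    · exact h0
    · exact h1
  have hphi : HasExponents (∑ j, (![b, c] : Fin 2 → Matrix (Fin r) (Fin r) R) j)
      (fun l => -lam 2 l) := by
    rw [Fin.sum_univ_two]
    exact h2
  have key : ∀ B : ℕ, 0 < B → (∀ i l, ∃ m : ℤ, (B : ℚ) * lam i l = m) →
      BadSys (![0, 1] : Fin 2 → R) ![b, c] B := fun B hB hBlam =>
    sys_sym _ hα _ hirr lam hlam hphi hr κ hκ hC hq hqq hd hne hB hBlam
  obtain ⟨B, hB, hBlam⟩ := exists_den lam
  exact ⟨key, (key B hB hBlam).not_condII hB⟩

end Pool.Agent.Results.MP_5e5ff1_ag.RankOneSymmetry
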